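import Mathlib

/-! Convexity of the mean stationary Kiefer-Wolfowitz workloads in the GI/GI/k queue. -/

open MeasureTheory Filter Topology
open scoped ENNReal NNReal Classical

namespace Pool.Agent.Results.MP_a2bed5_pr.Convex

variable {k : ℕ} [NeZero k]

/-- The increasing rearrangement of a vector. -/
noncomputable def srt (v : Fin k → ℝ≥0) : Fin k → ℝ≥0 := v ∘ Tuple.sort v

/-- The k numbers (W_1 + S - T)^+ and (W_j - T)^+ (subtraction in ℝ≥0 is truncated at 0). -/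
noncomputable def pre (w : Fin k → ℝ≥0) (s t : ℝ≥0) : Fin k → ℝ≥0 :=
  fun j => (if j = 0 then w j + s else w j) - t

/-- One step of the Kiefer-Wolfowitz recursion. -/
noncomputable def next (w : Fin k → ℝ≥0) (s t : ℝ≥0) : Fin k → ℝ≥0 := srt (pre w s t)

/-- π is stationary: if W has law π and S, T have laws μS, μT, all independent, then
the next workload vector has law π. -/
def Stationary (μS μT : Measure ℝ≥0) (π : Measure (Fin k → ℝ≥0)) : Prop :=
  π = (π.prod (μS.prod μT)).map (fun q => next q.1 q.2.1 q.2.2)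

noncomputable def cnt (v : Fin k → ℝ≥0) (y : ℝ) : ℕ :=
  (Finset.univ.filter (fun l => (v l : ℝ) ≤ y)).card

omit [NeZero k] in
lemma cnt_srt (v : Fin k → ℝ≥0) (y : ℝ) : cnt (srt v) y = cnt v y := by
  unfold cnt srt
  refine Finset.card_equiv (Tuple.sort v) fun i => ?_
  simp

omit [NeZero k] in
lemma srt_mono (v : Fin k → ℝ≥0) : Monotone (srt v) := Tuple.monotone_sort v

omit [NeZero k] in
lemma mono_iff {v : Fin k → ℝ≥0} (hv : Monotone v) (j : Fin k) (y : ℝ) :
    (v j : ℝ) ≤ y ↔ (j : ℕ) < cnt v y := by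
  constructor
  · intro h
    have : Finset.Iic j ⊆ Finset.univ.filter (fun l => (v l : ℝ) ≤ y) := by
      intro l hl
      simp only [Finset.mem_filter, Finset.mem_univ, true_and]
      exact le_trans (NNReal.coe_le_coe.2 (hv (Finset.mem_Iic.1 hl))) h
    have := Finset.card_le_card this
    rw [Fin.card_Iic] at this
    exact this
  · intro h
    by_contra hc
    have : Finset.univ.filter (fun l => (v l : ℝ) ≤ y) ⊆ Finset.Iio j := by
      intro l hl
      simp only [Finset.mem_filter, Finset.mem_univ, true_and] at hl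
      rw [Finset.mem_Iio]
      by_contra h2
      exact hc (le_trans (NNReal.coe_le_coe.2 (hv (not_lt.1 h2))) hl)
    have := Finset.card_le_card this
    rw [Fin.card_Iio] at this
    unfold cnt at h
    omega

omit [NeZero k] in
lemma cnt_le {a b : Fin k → ℝ≥0} {y y' : ℝ} (h : ∀ l, (b l : ℝ) ≤ y' → (a l : ℝ) ≤ y) :
    cnt b y' ≤ cnt a y := by
  apply Finset.card_le_card
  intro l hl
  simp only [Finset.mem_filter, Finset.mem_univ, true_and] at hl ⊢
  exact h l hl

omit [NeZero k] in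
lemma mono_shift {a b : Fin k → ℝ≥0} (ha : Monotone a) {c d : ℝ}
    (h : ∀ l, (a l : ℝ) - c ≤ b l - d) (j : Fin k) : (a j : ℝ) - c ≤ srt b j - d := by
  have h1 := (mono_iff (srt_mono b) j (srt b j)).1 le_rfl
  rw [cnt_srt] at h1
  have h2 : cnt b (srt b j) ≤ cnt a (srt b j - d + c) :=
    cnt_le fun l hl => by have := h l; linarith
  have := (mono_iff ha j _).2 (h1.trans_le h2)
  linarith

omit [NeZero k] in
lemma srt_shift {a b : Fin k → ℝ≥0} {c d : ℝ}
    (h : ∀ l, (a l : ℝ) - c ≤ b l - d) (j : Fin k) : (srt a j : ℝ) - c ≤ srt b j - d := by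
  have h1 := (mono_iff (srt_mono b) j (srt b j)).1 le_rfl
  rw [cnt_srt] at h1
  have h2 : cnt b (srt b j) ≤ cnt a (srt b j - d + c) :=
    cnt_le fun l hl => by have := h l; linarith
  rw [← cnt_srt a] at h2
  have := (mono_iff (srt_mono a) j _).2 (h1.trans_le h2)
  linarith

omit [NeZero k] in
lemma cnt_meas : Measurable (fun z : (Fin k → ℝ≥0) × ℝ => cnt z.1 z.2) := by
  have : (fun z : (Fin k → ℝ≥0) × ℝ => cnt z.1 z.2) =
      fun z => ∑ l, if (z.1 l : ℝ) ≤ z.2 then 1 else 0 := by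
    ext z; rw [cnt, Finset.card_filter]
  rw [this]
  refine Finset.measurable_sum _ fun l _ => Measurable.ite ?_ measurable_const measurable_const
  exact measurableSet_le (by fun_prop) measurable_snd

omit [NeZero k] in
lemma srt_meas : Measurable (srt : (Fin k → ℝ≥0) → _) := by
  refine measurable_pi_iff.2 fun j => measurable_of_Iic fun y => ?_
  have : (fun v : Fin k → ℝ≥0 => srt v j) ⁻¹' Set.Iic y =
      (fun v : Fin k → ℝ≥0 => cnt v y) ⁻¹' Set.Ioi (j : ℕ) := by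
    ext v
    simp only [Set.mem_preimage, Set.mem_Iic, Set.mem_Ioi]
    rw [← cnt_srt, ← mono_iff (srt_mono v), NNReal.coe_le_coe]
  rw [this]
  exact (cnt_meas.comp (measurable_id.prodMk measurable_const)) measurableSet_Ioi

lemma next_meas : Measurable (fun q : (Fin k → ℝ≥0) × ℝ≥0 × ℝ≥0 => next q.1 q.2.1 q.2.2) := by
  refine srt_meas.comp (measurable_pi_iff.2 fun j => ?_)
  unfold pre
  split_ifs <;> fun_prop

/-- extended state -/
abbrev Z (k : ℕ) := (Fin k → ℝ≥0) × ℝ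

noncomputable def step (z : Z k) (p : ℝ≥0 × ℝ≥0) : Z k := (next z.1 p.1 p.2, z.2 - p.2)

lemma step_meas : Measurable (fun q : Z k × (ℝ≥0 × ℝ≥0) => step q.1 q.2) := by
  refine Measurable.prodMk (next_meas.comp (f := fun q : Z k × (ℝ≥0 × ℝ≥0) => (q.1.1, q.2))
    (by fun_prop)) (by fun_prop)

def stay (z : Z k) (p : ℝ≥0 × ℝ≥0) : Prop := (z.1 0 : ℝ) + p.1 ≤ z.2

lemma stay_meas : MeasurableSet {q : Z k × (ℝ≥0 × ℝ≥0) | stay q.1 q.2} :=
  measurableSet_le (by fun_prop) (by fun_prop)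

def Rel (z z' : Z k) : Prop := z'.2 ≤ z.2 ∧ ∀ j, (z.1 j : ℝ) - z.2 ≤ z'.1 j - z'.2

lemma rel_step {z z' : Z k} (h : Rel z z') (p : ℝ≥0 × ℝ≥0) : Rel (step z p) (step z' p) := by
  refine ⟨by have := h.1; simp only [step]; linarith, fun j => srt_shift (fun l => ?_) j⟩
  have h1 := h.1
  have h2 := h.2 l
  simp only [pre, NNReal.coe_sub_def, step]
  split_ifs <;> push_cast <;> simp only [max_def] <;> split_ifs <;> linarith

lemma rel_self {z : Z k} (h : Monotone z.1) (p : ℝ≥0 × ℝ≥0) : Rel z (step z p) := by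
  refine ⟨by have := p.2.2; simp only [step]; simp, fun j => mono_shift h (fun l => ?_) j⟩
  have h1 : (0 : ℝ) ≤ p.1 := p.1.2
  simp only [pre, NNReal.coe_sub_def, step]
  split_ifs <;> push_cast <;> simp only [max_def] <;> split_ifs <;> linarith

lemma cnt_step {z : Z k} {p : ℝ≥0 × ℝ≥0} (h : 0 ≤ (step z p).2) :
    cnt (step z p).1 (step z p).2 =
      (Finset.univ.filter (fun l => ((if l = 0 then z.1 l + p.1 else z.1 l : ℝ≥0) : ℝ) ≤ z.2)).card := by
  simp only [step, next] at h ⊢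
  rw [cnt_srt, cnt]
  congr 1
  ext l
  simp only [Finset.mem_filter, Finset.mem_univ, true_and, pre, NNReal.coe_sub_def, max_le_iff]
  constructor
  · rintro ⟨h1, _⟩; linarith
  · intro h1; exact ⟨by linarith, h⟩

lemma cnt_stay {z : Z k} {p : ℝ≥0 × ℝ≥0} (h : 0 ≤ (step z p).2) (hs : stay z p) :
    cnt (step z p).1 (step z p).2 = cnt z.1 z.2 := by
  rw [cnt_step h, cnt]
  congr 1
  ext l
  simp only [Finset.mem_filter, Finset.mem_univ, true_and]
  have h1 : (0 : ℝ) ≤ p.1 := p.1.2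
  unfold stay at hs
  split_ifs with hl
  · subst hl; push_cast
    constructor <;> intro _ <;> linarith
  · rfl

lemma cnt_move {z : Z k} {p : ℝ≥0 × ℝ≥0} (hm : Monotone z.1) (h : 0 ≤ (step z p).2)
    (hs : ¬ stay z p) (hc : 1 ≤ cnt (step z p).1 (step z p).2) :
    cnt z.1 z.2 = cnt (step z p).1 (step z p).2 + 1 := by
  rw [cnt_step h] at hc ⊢
  unfold stay at hs
  obtain ⟨l0, hl0⟩ := Finset.card_pos.1 hc
  simp only [Finset.mem_filter, Finset.mem_univ, true_and] at hl0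
  have h0 : (z.1 0 : ℝ) ≤ z.2 := by
    split_ifs at hl0 with hl
    · subst hl; exact absurd (by simpa using hl0) hs
    · exact le_trans (NNReal.coe_le_coe.2 (hm (Fin.zero_le l0))) hl0
  rw [← Finset.card_insert_of_notMem (a := 0) (by simpa using hs), cnt]
  congr 1
  ext l
  simp only [Finset.mem_filter, Finset.mem_univ, true_and, Finset.mem_insert]
  by_cases hl : l = 0
  · subst hl; simp [h0]
  · simp [hl]

section
variable (ν : Measure (ℝ≥0 × ℝ≥0)) [IsProbabilityMeasure ν]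

noncomputable def St (f : Z k → ℝ≥0∞) (z : Z k) : ℝ≥0∞ :=
  ∫⁻ p, (if stay z p then f (step z p) else 0) ∂ν

noncomputable def Mv (f : Z k → ℝ≥0∞) (z : Z k) : ℝ≥0∞ :=
  ∫⁻ p, (if stay z p then 0 else f (step z p)) ∂ν

lemma St_im {f : Z k → ℝ≥0∞} (hf : Measurable f) :
    Measurable (fun q : Z k × (ℝ≥0 × ℝ≥0) => if stay q.1 q.2 then f (step q.1 q.2) else 0) :=
  Measurable.ite stay_meas (hf.comp step_meas) measurable_const

lemma Mv_im {f : Z k → ℝ≥0∞} (hf : Measurable f) :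
    Measurable (fun q : Z k × (ℝ≥0 × ℝ≥0) => if stay q.1 q.2 then 0 else f (step q.1 q.2)) :=
  Measurable.ite stay_meas measurable_const (hf.comp step_meas)

lemma St_im' {f : Z k → ℝ≥0∞} (hf : Measurable f) (z : Z k) :
    Measurable (fun p : ℝ≥0 × ℝ≥0 => if stay z p then f (step z p) else 0) :=
  (St_im hf).comp measurable_prodMk_left

lemma Mv_im' {f : Z k → ℝ≥0∞} (hf : Measurable f) (z : Z k) :
    Measurable (fun p : ℝ≥0 × ℝ≥0 => if stay z p then 0 else f (step z p)) :=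
  (Mv_im hf).comp measurable_prodMk_left

lemma St_meas {f : Z k → ℝ≥0∞} (hf : Measurable f) : Measurable (St ν f) :=
  (St_im hf).lintegral_prod_right'

lemma Mv_meas {f : Z k → ℝ≥0∞} (hf : Measurable f) : Measurable (Mv ν f) :=
  (Mv_im hf).lintegral_prod_right'

omit [IsProbabilityMeasure ν] in
lemma St_add_Mv {f : Z k → ℝ≥0∞} (hf : Measurable f) (z : Z k) :
    ∫⁻ p, f (step z p) ∂ν = St ν f z + Mv ν f z := by
  rw [St, Mv, ← lintegral_add_left (St_im' hf z)]
  refine lintegral_congr fun p => ?_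
  split_ifs <;> simp

noncomputable def g : ℕ → Z k → ℝ≥0∞
  | 0 => fun _ => 0
  | n + 1 => fun z => if 0 ≤ z.2 then 1 + St ν (g n) z else 0

lemma g_meas (n : ℕ) : Measurable (g ν n : Z k → ℝ≥0∞) := by
  induction n with
  | zero => exact measurable_const
  | succ n ih =>
    exact Measurable.ite (measurableSet_le measurable_const measurable_snd)
      (measurable_const.add (St_meas ν ih)) measurable_const

lemma St_le {f : Z k → ℝ≥0∞} {C : ℝ≥0∞} (hf : ∀ z, f z ≤ C) (z : Z k) : St ν f z ≤ C := by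
  calc St ν f z ≤ ∫⁻ _, C ∂ν := lintegral_mono fun p => by
        dsimp only; split_ifs
        · exact hf _
        · exact zero_le
    _ = C := by simp

lemma g_le (n : ℕ) (z : Z k) : g ν n z ≤ n := by
  induction n generalizing z with
  | zero => simp [g]
  | succ n ih =>
    simp only [g]
    split_ifs
    · push_cast; rw [add_comm]; gcongr; exact St_le ν ih z
    · exact zero_le

omit [IsProbabilityMeasure ν] in
lemma St_mono {f f' : Z k → ℝ≥0∞} (h : ∀ z, f z ≤ f' z) (z : Z k) : St ν f z ≤ St ν f' z :=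
  lintegral_mono fun p => by
    dsimp only; split_ifs
    · exact h _
    · exact le_rfl

omit [IsProbabilityMeasure ν] in
lemma g_succ (n : ℕ) (z : Z k) : g ν n z ≤ g ν (n + 1) z := by
  induction n generalizing z with
  | zero => simp [g]
  | succ n ih =>
    show (if 0 ≤ z.2 then 1 + St ν (g ν n) z else 0) ≤
      (if 0 ≤ z.2 then 1 + St ν (g ν (n + 1)) z else 0)
    split_ifs
    · gcongr; exact St_mono ν ih z
    · exact le_rfl

omit [IsProbabilityMeasure ν] in
lemma g_rel (n : ℕ) {z z' : Z k} (h : Rel z z') : g ν n z' ≤ g ν n z := by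
  induction n generalizing z z' with
  | zero => simp [g]
  | succ n ih =>
    simp only [g]
    split_ifs with h1 h2
    · gcongr
      refine lintegral_mono fun p => ?_
      dsimp only
      split_ifs with h3 h4
      · exact ih (rel_step h p)
      · exact absurd (by have := h.2 0; unfold stay at h3 ⊢; linarith) h4
      · exact zero_le
      · exact le_rfl
    · exact absurd (h1.trans h.1) h2
    · exact zero_le
    · exact le_rfl

lemma Mv_g (n : ℕ) {z : Z k} (hm : Monotone z.1) (h0 : 0 ≤ z.2) : Mv ν (g ν n) z ≤ 1 := by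
  have h1 : St ν (g ν n) z + Mv ν (g ν n) z ≤ St ν (g ν n) z + 1 := by
    rw [← St_add_Mv ν (g_meas ν n)]
    calc ∫⁻ p, g ν n (step z p) ∂ν ≤ ∫⁻ _, g ν n z ∂ν :=
          lintegral_mono fun p => g_rel ν n (rel_self hm p)
      _ = g ν n z := by simp
      _ ≤ g ν (n + 1) z := g_succ ν n z
      _ = _ := by simp only [g]; rw [if_pos h0, add_comm]
  exact ENNReal.le_of_add_le_add_left
    (ne_top_of_le_ne_top (ENNReal.natCast_ne_top n) (St_le ν (g_le ν n) z)) h1

def A (c : ℕ) (z : Z k) : Prop := 0 ≤ z.2 ∧ cnt z.1 z.2 = c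

omit [NeZero k] in
lemma A_meas (c : ℕ) : MeasurableSet {z : Z k | A c z} :=
  (measurableSet_le measurable_const measurable_snd).inter (cnt_meas (measurableSet_singleton c))

noncomputable def h (c : ℕ) (R : ℝ) : ℕ → Z k → ℝ≥0∞
  | 0 => fun z => if A c z then (if z.2 ≤ R then 1 else 0) else 0
  | n + 1 => fun z => if A c z then St ν (h c R n) z else 0

lemma h_meas (c : ℕ) (R : ℝ) (n : ℕ) : Measurable (h ν c R n : Z k → ℝ≥0∞) := by
  induction n with
  | zero =>
    exact Measurable.ite (A_meas c) (Measurable.ite (measurableSet_le measurable_snd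
      measurable_const) measurable_const measurable_const) measurable_const
  | succ n ih => exact Measurable.ite (A_meas c) (St_meas ν ih) measurable_const

omit [IsProbabilityMeasure ν] in
lemma h_supp {c : ℕ} {R : ℝ} {n : ℕ} {z : Z k} (hz : ¬ A c z) : h ν c R n z = 0 := by
  cases n <;> simp [h, hz]

lemma Q_h {c : ℕ} (hc : 1 ≤ c) (R : ℝ) (n : ℕ) {z : Z k} (hm : Monotone z.1) :
    ∫⁻ p, h ν c R n (step z p) ∂ν ≤
      h ν c R (n + 1) z + (if A (c + 1) z then Mv ν (h ν c R n) z else 0) := by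
  rw [St_add_Mv ν (h_meas ν c R n)]
  have hx : ∀ p : ℝ≥0 × ℝ≥0, 0 ≤ (step z p).2 → 0 ≤ z.2 := fun p hp => by
    have : (0 : ℝ) ≤ p.2 := p.2.2
    simp only [step] at hp; linarith
  gcongr
  · simp only [h]
    split_ifs with hA
    · exact le_rfl
    · refine le_of_eq ?_
      refine (lintegral_congr fun p => ?_).trans lintegral_zero
      split_ifs with hs
      · apply h_supp
        rintro ⟨a, b⟩
        exact hA ⟨hx p a, by rw [← cnt_stay a hs, b]⟩
      · rfl
  · split_ifs with hA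
    · exact le_rfl
    · refine le_of_eq ?_
      refine (lintegral_congr fun p => ?_).trans lintegral_zero
      split_ifs with hs
      · rfl
      · apply h_supp
        rintro ⟨a, b⟩
        exact hA ⟨hx p a, by rw [cnt_move hm a hs (by omega), b]⟩

lemma sum_h (c : ℕ) (R : ℝ) (n : ℕ) (z : Z k) :
    ∑ j ∈ Finset.range n, h ν c R j z ≤ g ν n z := by
  induction n generalizing z with
  | zero => simp
  | succ n ih =>
    by_cases hA : A c z
    · rw [Finset.sum_range_succ', add_comm]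
      simp only [g, h, if_pos hA, if_pos hA.1]
      gcongr
      · split_ifs <;> simp
      · unfold St
        rw [← lintegral_finsetSum _ (fun j _ => St_im' (h_meas ν c R j) z)]
        refine lintegral_mono fun p => ?_
        dsimp only
        split_ifs
        · exact ih _
        · simp
    · simp [h_supp ν hA]

lemma sum_Mv (c : ℕ) (R : ℝ) (n : ℕ) {z : Z k} (hm : Monotone z.1) (h0 : 0 ≤ z.2) :
    ∑ j ∈ Finset.range n, Mv ν (h ν c R j) z ≤ 1 := by
  refine le_trans ?_ (Mv_g ν n hm h0)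
  unfold Mv
  rw [← lintegral_finsetSum _ (fun j _ => Mv_im' (h_meas ν c R j) z)]
  refine lintegral_mono fun p => ?_
  dsimp only
  split_ifs
  · simp
  · exact sum_h ν c R n _

noncomputable def pp (R : ℝ) : ℕ → ℝ → ℝ≥0∞
  | 0 => fun x => if 0 ≤ x ∧ x ≤ R then 1 else 0
  | n + 1 => fun x => ∫⁻ p, pp R n (x - p.2) ∂ν

lemma pp_meas (R : ℝ) (n : ℕ) : Measurable (pp ν R n) := by
  induction n with
  | zero =>
    exact Measurable.ite (measurableSet_Icc (a := (0 : ℝ)) (b := R)) measurable_const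
      measurable_const
  | succ n ih =>
    exact (ih.comp (f := fun q : ℝ × (ℝ≥0 × ℝ≥0) => q.1 - q.2.2)
      (by fun_prop)).lintegral_prod_right'

omit [IsProbabilityMeasure ν] in
lemma h_le_pp (c : ℕ) (R : ℝ) (n : ℕ) (z : Z k) : h ν c R n z ≤ pp ν R n z.2 := by
  induction n generalizing z with
  | zero =>
    simp only [h, pp]
    split_ifs with h1 h2 h3 <;> simp
    exact h3 ⟨h1.1, h2⟩
  | succ n ih =>
    simp only [h, pp]
    split_ifs
    · refine lintegral_mono fun p => ?_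
      dsimp only
      split_ifs
      · exact ih _
      · exact zero_le
    · exact zero_le

lemma pp_int (R l : ℝ) (hl : 0 ≤ l) (n : ℕ) :
    ∫⁻ x, ENNReal.ofReal (Real.exp (-(l * x))) * pp ν R n x ≤
      (∫⁻ p, ENNReal.ofReal (Real.exp (-(l * p.2))) ∂ν) ^ n * ENNReal.ofReal R := by
  induction n with
  | zero =>
    rw [pow_zero, one_mul]
    calc _ ≤ ∫⁻ x, (Set.Icc (0 : ℝ) R).indicator 1 x := by
          refine lintegral_mono fun x => ?_
          simp only [pp, Set.indicator, Set.mem_Icc, Pi.one_apply]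
          split_ifs with hx
          · rw [mul_one]
            exact ENNReal.ofReal_le_one.2 (Real.exp_le_one_iff.2
              (by have := mul_nonneg hl hx.1; linarith))
          · simp
      _ = _ := by rw [lintegral_indicator_one measurableSet_Icc]; simp
  | succ n ih =>
    have hm := pp_meas ν R n
    calc ∫⁻ x, ENNReal.ofReal (Real.exp (-(l * x))) * pp ν R (n + 1) x
        = ∫⁻ x, ∫⁻ p, ENNReal.ofReal (Real.exp (-(l * x))) * pp ν R n (x - p.2) ∂ν := by
          refine lintegral_congr fun x => ?_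
          rw [lintegral_const_mul' _ _ ENNReal.ofReal_ne_top]
          rfl
      _ = ∫⁻ p, ∫⁻ x, ENNReal.ofReal (Real.exp (-(l * x))) * pp ν R n (x - p.2) ∂volume ∂ν := by
          refine lintegral_lintegral_swap ?_
          exact Measurable.aemeasurable (Measurable.mul (by fun_prop) (hm.comp (by fun_prop)))
      _ = ∫⁻ p, ENNReal.ofReal (Real.exp (-(l * p.2))) *
            (∫⁻ x, ENNReal.ofReal (Real.exp (-(l * x))) * pp ν R n x) ∂ν := by
          refine lintegral_congr fun p => ?_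
          rw [← lintegral_const_mul' _ _ ENNReal.ofReal_ne_top,
            ← lintegral_add_right_eq_self _ (p.2 : ℝ)]
          refine lintegral_congr fun x => ?_
          rw [add_sub_cancel_right, ← mul_assoc, ← ENNReal.ofReal_mul (Real.exp_pos _).le,
            ← Real.exp_add]
          congr 3; ring
      _ ≤ _ := by
          rw [lintegral_mul_const _ (by fun_prop), pow_succ', mul_assoc]
          gcongr

variable (π : Measure (Fin k → ℝ≥0)) [IsProbabilityMeasure π]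

lemma inv (hπ : π = (π.prod ν).map (fun q => next q.1 q.2.1 q.2.2)) {f : Z k → ℝ≥0∞}
    (hf : Measurable f) :
    ∫⁻ z, ∫⁻ p, f (step z p) ∂ν ∂(π.prod volume) = ∫⁻ z, f z ∂(π.prod volume) := by
  have h1 : Measurable (fun q : Z k × (ℝ≥0 × ℝ≥0) => f (step q.1 q.2)) := hf.comp step_meas
  have h2 : Measurable (fun w : Fin k → ℝ≥0 => ∫⁻ x : ℝ, f (w, x)) := hf.lintegral_prod_right'
  rw [lintegral_prod _ h1.lintegral_prod_right'.aemeasurable, lintegral_prod _ hf.aemeasurable]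
  have h3 : Measurable (fun q : (Fin k → ℝ≥0) × ℝ≥0 × ℝ≥0 =>
      ∫⁻ x : ℝ, f (next q.1 q.2.1 q.2.2, x)) := h2.comp next_meas
  conv_rhs => rw [hπ, lintegral_map h2 next_meas, lintegral_prod _ h3.aemeasurable]
  refine lintegral_congr fun w => ?_
  have h4 : Measurable (fun q : ℝ × (ℝ≥0 × ℝ≥0) => f (step (w, q.1) q.2)) :=
    h1.comp (f := fun q : ℝ × (ℝ≥0 × ℝ≥0) => ((w, q.1), q.2)) (by fun_prop)
  refine (lintegral_lintegral_swap (f := fun (x : ℝ) (p : ℝ≥0 × ℝ≥0) => f (step (w, x) p))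
    h4.aemeasurable).trans ?_
  refine lintegral_congr fun p => ?_
  exact lintegral_sub_right_eq_self (fun x : ℝ => f (next w p.1 p.2, x)) (p.2 : ℝ)

omit [IsProbabilityMeasure ν] [IsProbabilityMeasure π] in
lemma ae_mono (hπ : π = (π.prod ν).map (fun q => next q.1 q.2.1 q.2.2)) :
    ∀ᵐ w ∂π, Monotone w := by
  rw [hπ]
  refine (ae_map_iff next_meas.aemeasurable ?_).2 (ae_of_all _ fun q => srt_mono _)
  have : {w : Fin k → ℝ≥0 | Monotone w} = ⋂ a, ⋂ b, ⋂ _ : a ≤ b, {w | w a ≤ w b} := by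
    ext w; simp [Monotone]
  rw [this]
  exact MeasurableSet.iInter fun a => MeasurableSet.iInter fun b => MeasurableSet.iInter fun _ =>
    measurableSet_le (by fun_prop) (by fun_prop)

noncomputable def M (c : ℕ) : ℝ≥0∞ := ∫⁻ z : Z k, (if A c z then 1 else 0) ∂(π.prod volume)

lemma chain (hπ : π = (π.prod ν).map (fun q => next q.1 q.2.1 q.2.2)) {c : ℕ} (hc : 1 ≤ c)
    (R : ℝ) (n : ℕ) :
    ∫⁻ z, h ν c R 0 z ∂(π.prod volume) ≤ ∫⁻ z, h ν c R n z ∂(π.prod volume) + M π (c + 1) := by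
  have hae : ∀ᵐ z : Z k ∂(π.prod volume), Monotone z.1 :=
    Measure.quasiMeasurePreserving_fst.ae (ae_mono ν π hπ)
  have hB : ∀ j, Measurable (fun z : Z k => if A (c + 1) z then Mv ν (h ν c R j) z else 0) :=
    fun j => Measurable.ite (A_meas _) (Mv_meas ν (h_meas ν c R j)) measurable_const
  have h1 : ∀ n, ∫⁻ z, h ν c R 0 z ∂(π.prod volume) ≤ ∫⁻ z, h ν c R n z ∂(π.prod volume) +
      ∑ j ∈ Finset.range n,
        ∫⁻ z : Z k, (if A (c + 1) z then Mv ν (h ν c R j) z else 0) ∂(π.prod volume) := by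
    intro n
    induction n with
    | zero => simp
    | succ n ih =>
      refine ih.trans ?_
      rw [Finset.sum_range_succ, add_comm (∑ j ∈ Finset.range n, _), ← add_assoc]
      gcongr
      rw [← inv ν π hπ (h_meas ν c R n), ← lintegral_add_left (h_meas ν c R (n + 1))]
      exact lintegral_mono_ae (hae.mono fun z hz => Q_h ν hc R n hz)
  refine (h1 n).trans ?_
  gcongr
  rw [← lintegral_finsetSum _ (fun j _ => hB j)]
  refine lintegral_mono_ae (hae.mono fun z hz => ?_)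
  split_ifs with hA
  · exact sum_Mv ν c R n hz hA.1
  · simp

lemma rem (hπ : π = (π.prod ν).map (fun q => next q.1 q.2.1 q.2.2)) (c : Fin k) (R : ℝ)
    (hθ : ∫⁻ p, ENNReal.ofReal (Real.exp (-(1 * p.2))) ∂ν < 1) :
    Tendsto (fun n => ∫⁻ z, h ν c R n z ∂(π.prod volume)) atTop (𝓝 0) := by
  set θ := ∫⁻ p, ENNReal.ofReal (Real.exp (-(1 * p.2))) ∂ν
  let F : ℕ → (Fin k → ℝ≥0) → ℝ≥0∞ := fun n w =>
    min (ENNReal.ofReal R) (ENNReal.ofReal (Real.exp (w c)) * (θ ^ n * ENNReal.ofReal R))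
  have h1 : Tendsto (fun n => ∫⁻ w, F n w ∂π) atTop (𝓝 (∫⁻ _, 0 ∂π)) := by
    refine tendsto_lintegral_of_dominated_convergence (fun _ => ENNReal.ofReal R)
      (fun n => by fun_prop) (fun n => ae_of_all _ fun w => min_le_left _ _) (by simp)
      (ae_of_all _ fun w => ?_)
    have t1 := ENNReal.tendsto_pow_atTop_nhds_zero_of_lt_one hθ
    have t2 := ENNReal.Tendsto.mul_const (b := ENNReal.ofReal R) t1 (Or.inr ENNReal.ofReal_ne_top)
    have t3 := ENNReal.Tendsto.const_mul (a := ENNReal.ofReal (Real.exp (w c))) t2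
      (Or.inr ENNReal.ofReal_ne_top)
    simp only [zero_mul, mul_zero] at t3
    exact tendsto_of_tendsto_of_tendsto_of_le_of_le tendsto_const_nhds t3 (fun _ => zero_le)
      (fun n => min_le_right _ _)
  rw [lintegral_zero] at h1
  refine tendsto_of_tendsto_of_tendsto_of_le_of_le tendsto_const_nhds h1 (fun _ => zero_le)
    (fun n => ?_)
  dsimp only
  rw [lintegral_prod _ (h_meas ν c R n).aemeasurable]
  refine lintegral_mono_ae ((ae_mono ν π hπ).mono fun w hw => le_min ?_ ?_)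
  · have := pp_int ν R 0 le_rfl n
    simp only [zero_mul, neg_zero, Real.exp_zero, ENNReal.ofReal_one, one_mul, lintegral_const,
      measure_univ, one_pow, mul_one] at this
    exact (lintegral_mono fun x => h_le_pp ν c R n (w, x)).trans this
  · refine le_trans ?_ (mul_le_mul_right (pp_int ν R 1 zero_le_one n) _)
    rw [← lintegral_const_mul' _ _ ENNReal.ofReal_ne_top]
    refine lintegral_mono fun x => ?_
    dsimp only
    by_cases hA : A c ((w, x) : Z k)
    · have hx : x < w c := by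
        by_contra hc
        have := (mono_iff hw c x).1 (not_lt.1 hc)
        have h2 : cnt w x = c := hA.2
        omega
      rw [← mul_assoc, ← ENNReal.ofReal_mul (Real.exp_pos _).le, ← Real.exp_add]
      refine (h_le_pp ν c R n (w, x)).trans (le_mul_of_one_le_left zero_le ?_)
      exact ENNReal.one_le_ofReal.2 (Real.one_le_exp (by linarith))
    · rw [h_supp ν hA]; exact zero_le

lemma M_le (hπ : π = (π.prod ν).map (fun q => next q.1 q.2.1 q.2.2)) (c : Fin k)
    (hc : 1 ≤ (c : ℕ)) (hθ : ∫⁻ p, ENNReal.ofReal (Real.exp (-(1 * p.2))) ∂ν < 1) :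
    M π c ≤ M π (c + 1) := by
  have h1 : ∀ R : ℝ, ∫⁻ z, h ν c R 0 z ∂(π.prod volume) ≤ M π (c + 1) := by
    intro R
    have := (rem ν π hπ c R hθ).add_const (M π (c + 1))
    rw [zero_add] at this
    exact ge_of_tendsto' this fun n => chain ν π hπ hc R n
  have h2 : M π c = ⨆ R : ℕ, ∫⁻ z, h ν c R 0 z ∂(π.prod volume) := by
    rw [← lintegral_iSup (fun R => h_meas ν c R 0), M]
    · refine lintegral_congr fun z => ?_
      simp only [h]
      split_ifs
      · refine le_antisymm ?_ (iSup_le fun R => by split_ifs <;> simp)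
        obtain ⟨R, hR⟩ := exists_nat_ge z.2
        exact le_iSup_of_le R (by rw [if_pos hR])
      · simp
    · intro a b hab z
      simp only [h]
      have : (a : ℝ) ≤ b := by exact_mod_cast hab
      split_ifs with h1 h2 h3
      · exact le_rfl
      · exact absurd (h2.trans this) h3
      · exact zero_le
      · exact le_rfl
      · exact le_rfl
  rw [h2]
  exact iSup_le fun R => h1 R

omit [IsProbabilityMeasure ν] [IsProbabilityMeasure π] in
lemma M_eq (hπ : π = (π.prod ν).map (fun q => next q.1 q.2.1 q.2.2)) (a b : Fin k)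
    (hab : (b : ℕ) = a + 1) :
    ∫⁻ w, (w b : ℝ≥0∞) ∂π = ∫⁻ w, (w a : ℝ≥0∞) ∂π + M π b := by
  rw [M, lintegral_prod _ (Measurable.ite (A_meas _) measurable_const
    measurable_const).aemeasurable, ← lintegral_add_left (by fun_prop)]
  refine lintegral_congr_ae ((ae_mono ν π hπ).mono fun w hw => ?_)
  have hle : w a ≤ w b := hw (by rw [Fin.le_def]; omega)
  have : ∫⁻ x : ℝ, (if A b ((w, x) : Z k) then (1 : ℝ≥0∞) else 0) =
      ∫⁻ x : ℝ, (Set.Ico (w a : ℝ) (w b)).indicator 1 x := by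
    refine lintegral_congr fun x => ?_
    have h1 := mono_iff hw a x
    have h2 := mono_iff hw b x
    have h3 : A b ((w, x) : Z k) ↔ x ∈ Set.Ico (w a : ℝ) (w b) := by
      simp only [A, Set.mem_Ico, ← not_le]
      rw [h1, h2]
      constructor
      · rintro ⟨_, h⟩; omega
      · rintro ⟨h4, h5⟩
        exact ⟨le_trans (w a).2 (h1.2 h4), by omega⟩
    simp only [Set.indicator, h3, Pi.one_apply]
  dsimp only
  rw [this, lintegral_indicator_one measurableSet_Ico, Real.volume_Ico, ← NNReal.coe_sub hle,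
    ENNReal.ofReal_coe_nnreal, ← ENNReal.coe_add, add_tsub_cancel_of_le hle]

end

/-! Finiteness of the means -/

noncomputable def V (w : Fin k → ℝ≥0) : ℝ≥0 := ∑ j, w j ^ 2
noncomputable def L (w : Fin k → ℝ≥0) : ℝ≥0 := ∑ j, w j
noncomputable def LM (m : ℕ) (w : Fin k → ℝ≥0) : ℝ≥0 := if V w ≤ m then L w else 0

lemma drift {w : Fin k → ℝ≥0} (hw : Monotone w) (s t : ℝ≥0) :
    (k : ℝ) * V (next w s t) + 2 * k * t * L w ≤
      k * V w + 2 * s * L w + (k ^ 2 * t ^ 2 + k * s ^ 2) := by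
  have h1 : V (next w s t) = V (pre w s t) :=
    Equiv.sum_comp (Tuple.sort (pre w s t)) (fun j => pre w s t j ^ 2)
  have h2 : (V (pre w s t) : ℝ) ≤
      ∑ j, (((w j : ℝ) ^ 2 - 2 * t * w j + t ^ 2) +
        if j = 0 then 2 * (s : ℝ) * (w 0 : ℝ) + (s : ℝ) ^ 2 else 0) := by
    unfold V
    push_cast
    refine Finset.sum_le_sum fun j _ => ?_
    have hs : (0 : ℝ) ≤ s := s.2
    have ht : (0 : ℝ) ≤ t := t.2
    simp only [pre, NNReal.coe_sub_def]
    split_ifs with hj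
    · subst hj; push_cast
      rw [max_def]; split_ifs <;> nlinarith [mul_nonneg hs ht, sq_nonneg ((w 0 : ℝ) + s - t)]
    · rw [max_def]; split_ifs <;> nlinarith [sq_nonneg ((w j : ℝ) - t)]
  rw [Finset.sum_add_distrib, Finset.sum_add_distrib, Finset.sum_sub_distrib, ← Finset.mul_sum,
    Finset.sum_ite_eq', if_pos (Finset.mem_univ _), Finset.sum_const, Finset.card_univ,
    Fintype.card_fin, nsmul_eq_mul] at h2
  have h3 : (k : ℝ) * w 0 ≤ ∑ j, (w j : ℝ) := by
    have := Finset.card_nsmul_le_sum Finset.univ (fun j => (w j : ℝ)) (w 0)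
      (fun j _ => NNReal.coe_le_coe.2 (hw (Fin.zero_le j)))
    simpa using this
  have h4 : (V w : ℝ) = ∑ j, (w j : ℝ) ^ 2 := by unfold V; push_cast; rfl
  have h5 : (L w : ℝ) = ∑ j, (w j : ℝ) := by unfold L; push_cast; rfl
  rw [h1, h4, h5]
  have hk : (0 : ℝ) ≤ k := Nat.cast_nonneg k
  have hs : (0 : ℝ) ≤ s := s.2
  nlinarith [mul_le_mul_of_nonneg_left h2 hk, mul_le_mul_of_nonneg_left h3 hs]

lemma drift2 {w : Fin k → ℝ≥0} (hw : Monotone w) (s t : ℝ≥0) (m : ℕ) :
    (k : ℝ≥0) * min (V (next w s t)) m + 2 * k * (LM m w * t) ≤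
      k * min (V w) m + 2 * (LM m w * s) + (k ^ 2 * t ^ 2 + k * s ^ 2) := by
  unfold LM
  split_ifs with h
  · rw [min_eq_left h, ← NNReal.coe_le_coe]
    have := drift hw s t
    have h2 : ((min (V (next w s t)) m : ℝ≥0) : ℝ) ≤ V (next w s t) :=
      NNReal.coe_le_coe.2 (min_le_left _ _)
    have hk : (0 : ℝ) ≤ k := Nat.cast_nonneg k
    have := mul_le_mul_of_nonneg_left h2 hk
    simp only [NNReal.coe_add, NNReal.coe_mul, NNReal.coe_pow, NNReal.coe_natCast,
      NNReal.coe_ofNat]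
    nlinarith
  · rw [min_eq_right (not_le.1 h).le]
    simp only [zero_mul, mul_zero, add_zero]
    exact le_add_right (mul_le_mul_right (min_le_right _ _) _)

omit [NeZero k] in
lemma V_meas : Measurable (V : (Fin k → ℝ≥0) → ℝ≥0) := by unfold V; fun_prop
omit [NeZero k] in
lemma L_meas : Measurable (L : (Fin k → ℝ≥0) → ℝ≥0) := by unfold L; fun_prop
omit [NeZero k] in
lemma LM_meas (m : ℕ) : Measurable (LM m : (Fin k → ℝ≥0) → ℝ≥0) :=
  Measurable.ite (measurableSet_le V_meas measurable_const) L_meas measurable_const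

omit [NeZero k] in
lemma LM_le (m : ℕ) (w : Fin k → ℝ≥0) : LM m w ≤ m + k := by
  unfold LM
  split_ifs with h
  · refine le_trans ?_ (add_le_add_left h _)
    have : L w ≤ ∑ j, (w j ^ 2 + 1) := Finset.sum_le_sum fun j _ => by
      rw [← NNReal.coe_le_coe]; push_cast; nlinarith [sq_nonneg ((w j : ℝ) - 1), (w j).2]
    rw [Finset.sum_add_distrib] at this
    simpa [V] using this
  · exact zero_le

lemma finite_mean (μS μT : Measure ℝ≥0) [IsProbabilityMeasure μS] [IsProbabilityMeasure μT]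
    (hT1 : ∫⁻ t, (t : ℝ≥0∞) ∂μT < ∞) (hT2 : ∫⁻ t, (t : ℝ≥0∞) ^ 2 ∂μT < ∞)
    (hS2 : ∫⁻ s, (s : ℝ≥0∞) ^ 2 ∂μS < ∞)
    (hρ : ∫⁻ s, (s : ℝ≥0∞) ∂μS < k * ∫⁻ t, (t : ℝ≥0∞) ∂μT)
    (π : Measure (Fin k → ℝ≥0)) [IsProbabilityMeasure π] (hπ : Stationary μS μT π) :
    ∫⁻ w, (L w : ℝ≥0∞) ∂π < ∞ := by
  set C : ℝ≥0∞ := k ^ 2 * ∫⁻ t, (t : ℝ≥0∞) ^ 2 ∂μT + k * ∫⁻ s, (s : ℝ≥0∞) ^ 2 ∂μS with hC
  have hCt : C ≠ ∞ := by
    refine ENNReal.add_ne_top.2 ⟨ENNReal.mul_ne_top (by simp) hT2.ne,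
      ENNReal.mul_ne_top (by simp) hS2.ne⟩
  set a := ∫⁻ s, (s : ℝ≥0∞) ∂μS with ha
  set b := ∫⁻ t, (t : ℝ≥0∞) ∂μT with hb
  have hf : ∀ f : ℝ≥0 → ℝ≥0∞, Measurable f → ∫⁻ p, f p.1 ∂(μS.prod μT) = ∫⁻ s, f s ∂μS :=
    fun f hf => (measurePreserving_fst (μ := μS) (ν := μT)).lintegral_comp hf
  have hg : ∀ f : ℝ≥0 → ℝ≥0∞, Measurable f → ∫⁻ p, f p.2 ∂(μS.prod μT) = ∫⁻ s, f s ∂μT :=
    fun f hf => (measurePreserving_snd (μ := μS) (ν := μT)).lintegral_comp hf
  have key : ∀ m : ℕ, 2 * k * ((∫⁻ w, (LM m w : ℝ≥0∞) ∂π) * b) ≤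
      2 * ((∫⁻ w, (LM m w : ℝ≥0∞) ∂π) * a) + C := by
    intro m
    have mX : Measurable (fun w : Fin k → ℝ≥0 => ((min (V w) m : ℝ≥0) : ℝ≥0∞)) :=
      (V_meas.min measurable_const).coe_nnreal_ennreal
    have mX' : Measurable (fun q : (Fin k → ℝ≥0) × ℝ≥0 × ℝ≥0 =>
        ((min (V (next q.1 q.2.1 q.2.2)) m : ℝ≥0) : ℝ≥0∞)) := mX.comp next_meas
    have mL := (LM_meas (k := k) m).coe_nnreal_ennreal
    set X := ∫⁻ w, ((min (V w) m : ℝ≥0) : ℝ≥0∞) ∂π with hX
    have hXt : X ≠ ∞ := by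
      refine ne_top_of_le_ne_top (b := ∫⁻ _, ((m : ℝ≥0) : ℝ≥0∞) ∂π) (by simp) ?_
      exact lintegral_mono fun w => ENNReal.coe_le_coe.2 (min_le_right _ _)
    have e1 : ∫⁻ q, ((min (V (next q.1 q.2.1 q.2.2)) m : ℝ≥0) : ℝ≥0∞) ∂(π.prod (μS.prod μT)) =
        X := by
      rw [hX]; conv_rhs => rw [hπ, lintegral_map mX next_meas]
    have e2 : ∫⁻ q, ((min (V q.1) m : ℝ≥0) : ℝ≥0∞) ∂(π.prod (μS.prod μT)) = X :=
      (measurePreserving_fst (μ := π) (ν := μS.prod μT)).lintegral_comp mX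
    have e3 : ∫⁻ q, (LM m q.1 : ℝ≥0∞) * (q.2.2 : ℝ≥0∞) ∂(π.prod (μS.prod μT)) =
        (∫⁻ w, (LM m w : ℝ≥0∞) ∂π) * b := by
      rw [lintegral_prod_mul (f := fun w => (LM m w : ℝ≥0∞))
        (g := fun p : ℝ≥0 × ℝ≥0 => (p.2 : ℝ≥0∞)) mL.aemeasurable (by fun_prop),
        hg (fun t => (t : ℝ≥0∞)) (by fun_prop)]
    have e4 : ∫⁻ q, (LM m q.1 : ℝ≥0∞) * (q.2.1 : ℝ≥0∞) ∂(π.prod (μS.prod μT)) =
        (∫⁻ w, (LM m w : ℝ≥0∞) ∂π) * a := by
      rw [lintegral_prod_mul (f := fun w => (LM m w : ℝ≥0∞))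
        (g := fun p : ℝ≥0 × ℝ≥0 => (p.1 : ℝ≥0∞)) mL.aemeasurable (by fun_prop),
        hf (fun t => (t : ℝ≥0∞)) (by fun_prop)]
    have e5 : ∫⁻ q, ((k : ℝ≥0∞) ^ 2 * (q.2.2 : ℝ≥0∞) ^ 2 + k * (q.2.1 : ℝ≥0∞) ^ 2)
        ∂(π.prod (μS.prod μT)) = C := by
      rw [(measurePreserving_snd (μ := π) (ν := μS.prod μT)).lintegral_comp
        (f := fun p : ℝ≥0 × ℝ≥0 => (k : ℝ≥0∞) ^ 2 * (p.2 : ℝ≥0∞) ^ 2 + k * (p.1 : ℝ≥0∞) ^ 2)
        (by fun_prop), lintegral_add_left (by fun_prop), lintegral_const_mul _ (by fun_prop),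
        lintegral_const_mul _ (by fun_prop), hg (fun t => (t : ℝ≥0∞) ^ 2) (by fun_prop),
        hf (fun t => (t : ℝ≥0∞) ^ 2) (by fun_prop)]
    have hae : ∀ᵐ q ∂(π.prod (μS.prod μT)), Monotone q.1 :=
      Measure.quasiMeasurePreserving_fst.ae (ae_mono _ π hπ)
    have mL2 : Measurable (fun q : (Fin k → ℝ≥0) × ℝ≥0 × ℝ≥0 => (LM m q.1 : ℝ≥0∞)) :=
      mL.comp measurable_fst
    have mX2 : Measurable (fun q : (Fin k → ℝ≥0) × ℝ≥0 × ℝ≥0 =>
        ((min (V q.1) m : ℝ≥0) : ℝ≥0∞)) := mX.comp measurable_fst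
    have main : k * X + 2 * k * ((∫⁻ w, (LM m w : ℝ≥0∞) ∂π) * b) ≤
        k * X + 2 * ((∫⁻ w, (LM m w : ℝ≥0∞) ∂π) * a) + C := by
      conv_lhs => rw [← e1, ← e3]
      conv_rhs => rw [← e2, ← e4, ← e5]
      rw [← lintegral_const_mul _ mX', ← lintegral_const_mul _ mX2,
        ← lintegral_const_mul' _ _ (ENNReal.mul_ne_top (by simp) (by simp)),
        ← lintegral_const_mul' _ _ (by simp), ← lintegral_add_left (mX'.const_mul _),
        ← lintegral_add_left (mX2.const_mul _), ← lintegral_add_right _ (by fun_prop)]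
      refine lintegral_mono_ae (hae.mono fun q hq => ?_)
      exact_mod_cast drift2 hq q.2.1 q.2.2 m
    rw [add_assoc] at main
    exact ENNReal.le_of_add_le_add_left (ENNReal.mul_ne_top (by simp) hXt) main
  have hkb : (k : ℝ≥0∞) * b ≠ ∞ := ENNReal.mul_ne_top (by simp) hT1.ne
  have hat : a ≠ ∞ := ne_top_of_lt hρ
  have hd : (k : ℝ≥0∞) * b - a ≠ 0 := (tsub_pos_of_lt hρ).ne'
  have bound : ∀ m : ℕ, ∫⁻ w, (LM m w : ℝ≥0∞) ∂π ≤ C / (k * b - a) := by
    intro m
    have h1 := key m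
    have hY : ∫⁻ w, (LM m w : ℝ≥0∞) ∂π ≠ ∞ := by
      refine ne_top_of_le_ne_top (b := ∫⁻ _, ((m + k : ℝ≥0) : ℝ≥0∞) ∂π) (by simp) ?_
      exact lintegral_mono fun w => ENNReal.coe_le_coe.2 (LM_le m w)
    generalize ∫⁻ w, (LM m w : ℝ≥0∞) ∂π = Y at h1 hY
    rw [ENNReal.le_div_iff_mul_le (Or.inl hd) (Or.inr hCt)]
    have h2 : 2 * k * (Y * b) = 2 * (Y * a) + 2 * (Y * (k * b - a)) := by
      rw [← mul_add, ← mul_add, add_tsub_cancel_of_le hρ.le]; ring
    rw [h2] at h1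
    have h3 := ENNReal.le_of_add_le_add_left
      (ENNReal.mul_ne_top (by simp) (ENNReal.mul_ne_top hY hat)) h1
    exact le_trans (le_mul_of_one_le_left zero_le (by norm_num)) h3
  have h2 : ∫⁻ w, (L w : ℝ≥0∞) ∂π = ⨆ m : ℕ, ∫⁻ w, (LM m w : ℝ≥0∞) ∂π := by
    rw [← lintegral_iSup (fun m => (LM_meas m).coe_nnreal_ennreal)]
    · refine lintegral_congr fun w => ?_
      refine le_antisymm ?_ (iSup_le fun m => by unfold LM; split_ifs <;> simp)
      obtain ⟨m, hm⟩ := exists_nat_ge (V w)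
      exact le_iSup_of_le m (by unfold LM; rw [if_pos hm])
    · intro a b hab w
      have : (a : ℝ≥0) ≤ b := by exact_mod_cast hab
      simp only [LM]
      split_ifs with h1 h2
      · exact le_rfl
      · exact absurd (h1.trans this) h2
      · exact zero_le
      · exact le_rfl
  rw [h2]
  exact (iSup_le bound).trans_lt (ENNReal.div_lt_top hCt hd)

/-- For every k ≥ 3, laws of T and S with finite first and second moments and 0 < ES < k ET, and
every stationary law π of the Kiefer-Wolfowitz vector, the means E W_j are finite and form a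
convex sequence. -/
theorem result (k : ℕ) [NeZero k] (_hk : 3 ≤ k)
    (μS μT : Measure ℝ≥0) [IsProbabilityMeasure μS] [IsProbabilityMeasure μT]
    (hT1 : ∫⁻ t, (t : ℝ≥0∞) ∂μT < ∞) (hT2 : ∫⁻ t, (t : ℝ≥0∞) ^ 2 ∂μT < ∞)
    (_hS1 : ∫⁻ s, (s : ℝ≥0∞) ∂μS < ∞) (hS2 : ∫⁻ s, (s : ℝ≥0∞) ^ 2 ∂μS < ∞)
    (_hρ0 : 0 < ∫⁻ s, (s : ℝ≥0∞) ∂μS)
    (hρ : ∫⁻ s, (s : ℝ≥0∞) ∂μS < k * ∫⁻ t, (t : ℝ≥0∞) ∂μT)
    (π : Measure (Fin k → ℝ≥0)) [IsProbabilityMeasure π] (hπ : Stationary μS μT π) :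
    (∀ j, ∫⁻ w, (w j : ℝ≥0∞) ∂π < ∞) ∧
      ∀ a b c : Fin k, (b : ℕ) = a + 1 → (c : ℕ) = b + 1 →
        2 * ∫⁻ w, (w b : ℝ≥0∞) ∂π ≤ ∫⁻ w, (w a : ℝ≥0∞) ∂π + ∫⁻ w, (w c : ℝ≥0∞) ∂π := by
  refine ⟨fun j => lt_of_le_of_lt (lintegral_mono fun w => ?_)
    (finite_mean μS μT hT1 hT2 hS2 hρ π hπ), fun a b c hab hbc => ?_⟩
  · exact ENNReal.coe_le_coe.2 (Finset.single_le_sum (f := w) (fun _ _ => zero_le)
      (Finset.mem_univ j))
  have hθ : ∫⁻ p, ENNReal.ofReal (Real.exp (-(1 * p.2))) ∂(μS.prod μT) < 1 := by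
    rw [(measurePreserving_snd (μ := μS) (ν := μT)).lintegral_comp
      (f := fun t : ℝ≥0 => ENNReal.ofReal (Real.exp (-(1 * t)))) (by fun_prop)]
    have hle : ∀ t : ℝ≥0, ENNReal.ofReal (Real.exp (-(1 * t))) ≤ 1 := fun t =>
      ENNReal.ofReal_le_one.2 (Real.exp_le_one_iff.2 (by simp))
    have h1 : ∫⁻ _, (1 : ℝ≥0∞) ∂μT = 1 := by simp
    rw [← h1]
    refine lintegral_strict_mono_of_ae_le_of_frequently_ae_lt (by fun_prop)
      (ne_top_of_le_ne_top (by simp) (lintegral_mono hle)) (ae_of_all _ hle) ?_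
    intro hc
    have h0 : ∫⁻ t, (t : ℝ≥0∞) ∂μT = 0 := by
      refine (lintegral_congr_ae (hc.mono fun t ht => ?_)).trans lintegral_zero
      simp only [ne_eq, not_not, ENNReal.ofReal_eq_one, Real.exp_eq_one_iff] at ht
      have : t = 0 := by
        apply NNReal.coe_eq_zero.1; linarith
      simp [this]
    rw [h0] at hρ
    simp at hρ
  have h1 := M_eq _ π hπ a b hab
  have h2 := M_eq _ π hπ b c hbc
  have h3 := M_le _ π hπ b (by omega) hθ
  rw [← hbc] at h3
  calc 2 * ∫⁻ w, (w b : ℝ≥0∞) ∂π = ∫⁻ w, (w b : ℝ≥0∞) ∂π + ∫⁻ w, (w b : ℝ≥0∞) ∂π := two_mul _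
    _ = ∫⁻ w, (w a : ℝ≥0∞) ∂π + (∫⁻ w, (w b : ℝ≥0∞) ∂π + M π b) := by
        nth_rewrite 1 [h1]; ring
    _ ≤ _ := by rw [h2]; gcongr

end Pool.Agent.Results.MP_a2bed5_pr.Convex
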